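import Mathlib

/-!
# Facts on permutations of six points
-/

namespace Pool.Agent.X238.Qdl

open Equiv

theorem card_centralizer_five (c : Perm (Fin 6)) (hc : orderOf c = 5) :
    Nat.card (Subgroup.centralizer {c}) = 5 := by
  have hp : (orderOf c).Prime := by rw [hc]; norm_num
  obtain ⟨n, hn⟩ := Equiv.Perm.cycleType_prime_order hp
  rw [hc] at hn
  have hs := Equiv.Perm.sum_cycleType_le c
  rw [hn] at hs
  simp at hs
  have hn0 : n = 0 := by omega
  subst hn0
  rw [Equiv.Perm.nat_card_centralizer, hn]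
  simp

theorem cycleType_nine (r : Perm (Fin 6)) (hr : r ^ 9 = 1) (h1 : r ≠ 1) :
    r.cycleType = Multiset.replicate 1 3 ∨ r.cycleType = Multiset.replicate 2 3 := by
  have hs := Equiv.Perm.sum_cycleType_le r
  rw [Fintype.card_fin] at hs
  have hall : ∀ k ∈ r.cycleType, k = 3 := by
    intro k hk
    have hd : k ∣ 9 := (Equiv.Perm.dvd_of_mem_cycleType hk).trans (orderOf_dvd_of_pow_eq_one hr)
    have h2 := Equiv.Perm.two_le_of_mem_cycleType hk
    have h3 : k ≤ 6 := le_trans (Multiset.le_sum_of_mem hk) hs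
    interval_cases k <;> first | rfl | (exfalso; revert hd; decide)
  have heq : r.cycleType = Multiset.replicate (Multiset.card r.cycleType) 3 :=
    Multiset.eq_replicate_card.2 hall
  have hc0 : Multiset.card r.cycleType ≠ 0 := by
    rw [Ne, Multiset.card_eq_zero, Equiv.Perm.cycleType_eq_zero]
    exact h1
  rw [heq] at hs
  simp at hs
  have h12 : Multiset.card r.cycleType = 1 ∨ Multiset.card r.cycleType = 2 := by omega
  rcases h12 with h | h
  · left; rw [heq, h]
  · right; rw [heq, h]

theorem card_centralizer_nine (r : Perm (Fin 6)) (hr : r ^ 9 = 1) (h1 : r ≠ 1) :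
    Nat.card (Subgroup.centralizer {r}) = 18 := by
  rw [Equiv.Perm.nat_card_centralizer]
  rcases cycleType_nine r hr h1 with h | h
  · rw [h]; decide
  · rw [h]; decide

theorem isThreeCycle_nine (r : Perm (Fin 6)) (hr : r ^ 9 = 1) (h1 : r ≠ 1)
    (i : Fin 6) (hi : r i = i) : r.IsThreeCycle := by
  rcases cycleType_nine r hr h1 with h | h
  · rw [Equiv.Perm.IsThreeCycle, h]; rfl
  · exfalso
    have hs := Equiv.Perm.sum_cycleType r
    rw [h] at hs
    simp at hs
    have hu : r.support = Finset.univ := by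
      apply Finset.eq_univ_of_card
      rw [← hs]; rfl
    have : i ∈ r.support := by rw [hu]; exact Finset.mem_univ _
    exact (Equiv.Perm.mem_support.1 this) hi

theorem sign_involution (u : Perm (Fin 6)) (hu : u ^ 2 = 1) (hf : ∀ i, u i ≠ i) :
    Perm.sign u = -1 := by
  rw [Equiv.Perm.sign_of_pow_two_eq_one hu]
  have h0 : Fintype.card (Function.fixedPoints u) = 0 := by
    rw [Fintype.card_eq_zero_iff]
    exact ⟨fun x => hf x.1 x.2⟩
  rw [h0]
  decide

end Pool.Agent.X238.Qdl
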