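import Mathlib
import Pool.Agent.X238.Qdl.Perm6

/-!
# The key finite statement: permutations commuting with a point stabilizer
-/

namespace Pool.Agent.X238.Qdl

open Equiv MulAction

/-- Doubly transitive (ordered pairs of distinct points), vacuous on at most one point. -/
def TT (G X : Type*) [Group G] [MulAction G X] : Prop :=
  ∀ a b c d : X, a ≠ b → c ≠ d → ∃ g : G, g • a = c ∧ g • b = d

theorem TT.trans {G X : Type*} [Group G] [MulAction G X] (h : TT G X) (a b : X) :
    ∃ g : G, g • a = b := by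
  by_cases hab : a = b
  · exact ⟨1, by rw [one_smul]; exact hab⟩
  · obtain ⟨g, hg, -⟩ := h a b b a hab (Ne.symm hab)
    exact ⟨g, hg⟩

theorem TT.card_eq {G X : Type*} [Group G] [MulAction G X] (h : TT G X) (x : X) :
    Nat.card G = Nat.card X * Nat.card (stabilizer G x) := by
  have : IsPretransitive G X := ⟨h.trans⟩
  rw [← index_stabilizer_of_transitive G x]
  exact (Subgroup.index_mul_card _).symm

theorem TT.card_stab {G X : Type*} [Group G] [MulAction G X] [Finite X] (h : TT G X)
    {x y : X} (hxy : y ≠ x) :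
    Nat.card (stabilizer G x) = (Nat.card X - 1) * Nat.card (stabilizer (stabilizer G x) y) := by
  have hi := index_stabilizer (stabilizer G x) y
  have ho : orbit (stabilizer G x) y = ({x} : Set X)ᶜ := by
    ext z
    constructor
    · rintro ⟨g, rfl⟩
      intro hz
      apply hxy
      have h1 : (g : G) • y = x := hz
      have h2 : (g : G) • x = x := g.2
      exact smul_left_cancel _ (h1.trans h2.symm)
    · intro hz
      have hz' : z ≠ x := hz
      obtain ⟨g, hg1, hg2⟩ := h x y x z hxy.symm hz'.symm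
      exact ⟨⟨g, hg1⟩, hg2⟩
  rw [ho, Set.ncard_compl, Set.ncard_singleton] at hi
  rw [← hi]
  exact (Subgroup.index_mul_card _).symm

structure Key (H : Subgroup (Perm (Fin 6))) (X : Type*) [MulAction H X] (x : X)
    (σ : Perm X) : Prop where
  faithful : ∀ h : H, (∀ y : X, h • y = y) → h = 1
  tt6 : TT H (Fin 6)
  ttX : TT H X
  fix : σ x = x
  tw : ∀ h : H, ∃ h' : H, ∀ y, σ (h • y) = h' • σ y
  st : ∀ h : H, h • x = x → ∀ y, σ (h • y) = h • σ y

namespace Key

variable {H : Subgroup (Perm (Fin 6))} {X : Type*} [MulAction H X] {x : X} {σ : Perm X}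

theorem eq_of_act (K : Key H X x σ) (g h : H) (e : ∀ y : X, g • y = h • y) : g = h := by
  have := K.faithful (h⁻¹ * g) (fun y => by rw [mul_smul, e y, inv_smul_smul])
  rw [inv_mul_eq_one] at this
  exact this.symm

theorem no_two (K : Key H X x σ) {y : X} (hy : σ y ≠ y) (g : H) (a b : X) (hab : a ≠ b)
    (ha : g • a = a) (hb : g • b = b) : ∃ c, c ≠ a ∧ c ≠ b ∧ g • c = c := by
  have hyx : y ≠ x := by
    intro h; rw [h] at hy; exact hy K.fix
  obtain ⟨n, hn1, hn2⟩ := K.ttX a b x y hab hyx.symm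
  have hx' : (n * g * n⁻¹) • x = x := by
    rw [← hn1, mul_smul, mul_smul, inv_smul_smul, ha]
  have hy' : (n * g * n⁻¹) • y = y := by
    rw [← hn2, mul_smul, mul_smul, inv_smul_smul, hb]
  have h1 := K.st _ hx' y
  rw [hy'] at h1
  have hsx : σ y ≠ x := by
    intro h
    apply hyx
    apply σ.injective
    rw [h, K.fix]
  refine ⟨n⁻¹ • σ y, ?_, ?_, ?_⟩
  · intro h
    apply hsx
    rw [← hn1, ← h, smul_inv_smul]
  · intro h
    apply hy
    conv_rhs => rw [← hn2, ← h]
    rw [smul_inv_smul]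
  · have h2 : n⁻¹ • σ y = n⁻¹ • (n * g * n⁻¹) • σ y := by rw [← h1]
    rw [mul_smul, mul_smul, inv_smul_smul] at h2
    exact h2.symm

theorem tw_comm (K : Key H X x σ) (c : H) (hc : c • x = x) (h h' : H)
    (hh : ∀ y, σ (h • y) = h' • σ y) (hcx : c • (h • x) = h • x) :
    c * (h' * h⁻¹) = (h' * h⁻¹) * c := by
  have hfx : (h⁻¹ * c * h) • x = x := by
    rw [mul_smul, mul_smul, hcx, inv_smul_smul]
  have e : ∀ z, (c * h') • σ z = (h' * (h⁻¹ * c * h)) • σ z := by
    intro z
    have h1 : σ ((c * h) • z) = (c * h') • σ z := by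
      rw [mul_smul, K.st c hc, hh, mul_smul]
    have h2 : σ ((c * h) • z) = (h' * (h⁻¹ * c * h)) • σ z := by
      have : (c * h) • z = h • ((h⁻¹ * c * h) • z) := by
        rw [← mul_smul]; congr 1; group
      rw [this, hh, K.st _ hfx, smul_smul]
    rw [← h1, h2]
  have e2 : c * h' = h' * (h⁻¹ * c * h) := by
    apply K.eq_of_act
    intro y
    have := e (σ.symm y)
    rwa [σ.apply_symm_apply] at this
  calc c * (h' * h⁻¹) = (c * h') * h⁻¹ := by group
    _ = (h' * (h⁻¹ * c * h)) * h⁻¹ := by rw [e2]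
    _ = _ := by group

theorem centralizer_five (c t : Perm (Fin 6)) (hc : orderOf c = 5) (ht : c * t = t * c) :
    t ∈ Subgroup.zpowers c := by
  have hle : Subgroup.zpowers c ≤ Subgroup.centralizer {c} := by
    rw [Subgroup.zpowers_le]
    rw [Subgroup.mem_centralizer_singleton_iff]
  have hcard : Nat.card (Subgroup.zpowers c) = Nat.card (Subgroup.centralizer {c}) := by
    rw [card_centralizer_five c hc, Nat.card_zpowers, hc]
  have heq : Subgroup.zpowers c = Subgroup.centralizer {c} :=
    Subgroup.eq_of_le_of_card_ge hle hcard.ge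
  rw [heq, Subgroup.mem_centralizer_singleton_iff]
  first | exact ht | exact ht.symm

theorem no_five (K : Key H X x σ) {y : X} (hy : σ y ≠ y) (c : H)
    (hc : orderOf (c : Perm (Fin 6)) = 5) (a b : X) (hab : a ≠ b)
    (ha : c • a = a) (hb : c • b = b) : False := by
  have hyx : y ≠ x := by
    intro h; rw [h] at hy; exact hy K.fix
  obtain ⟨n, hn1, hn2⟩ := K.ttX a b x y hab hyx.symm
  have hx' : (n * c * n⁻¹) • x = x := by
    rw [← hn1, mul_smul, mul_smul, inv_smul_smul, ha]
  have hy' : (n * c * n⁻¹) • y = y := by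
    rw [← hn2, mul_smul, mul_smul, inv_smul_smul, hb]
  have hord : orderOf ((n * c * n⁻¹ : H) : Perm (Fin 6)) = 5 := by
    rw [← hc]
    push_cast
    have := MulAut.conj_apply (n : Perm (Fin 6)) (c : Perm (Fin 6))
    rw [← this]
    exact MulEquiv.orderOf_eq _ _
  obtain ⟨h, hh⟩ := K.ttX.trans x y
  obtain ⟨h', hh'⟩ := K.tw h
  have hcm := K.tw_comm (n * c * n⁻¹) hx' h h' hh' (by rw [hh]; exact hy')
  have hmem : ((h' * h⁻¹ : H) : Perm (Fin 6)) ∈ Subgroup.zpowers ((n * c * n⁻¹ : H) : Perm (Fin 6)) := by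
    apply centralizer_five _ _ hord
    have := congrArg (fun z : H => (z : Perm (Fin 6))) hcm
    exact this
  obtain ⟨k, hk⟩ := Subgroup.mem_zpowers_iff.1 hmem
  have hk' : (n * c * n⁻¹) ^ k = h' * h⁻¹ := by
    apply Subtype.ext
    rw [← hk]
    push_cast
    rfl
  have hst : (n * c * n⁻¹) ^ k ∈ stabilizer H y := Subgroup.zpow_mem _ hy' k
  have h1 : (h' * h⁻¹) • y = y := by rw [← hk']; exact hst
  apply hy
  calc σ y = σ (h • x) := by rw [hh]
    _ = h' • σ x := hh' x
    _ = h' • x := by rw [K.fix]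
    _ = h' • h⁻¹ • y := by rw [← hh, inv_smul_smul]
    _ = y := by rw [← mul_smul]; exact h1

theorem reg (K : Key H X x σ) {y : X} (hy : σ y ≠ y) (R : Set H)
    (hR : ∀ r ∈ R, r • x = x) (hcomm : ∀ r ∈ R, ∀ r' ∈ R, r * r' = r' * r)
    (htr : ∀ z, z ≠ x → ∃ r ∈ R, r • y = z) :
    ∃ r ∈ R, r ≠ 1 ∧
      Nat.card (stabilizer H x) ∣ Nat.card (Subgroup.centralizer {(r : Perm (Fin 6))}) := by
  have hyx : y ≠ x := by
    intro h; rw [h] at hy; exact hy K.fix
  have hsx : σ y ≠ x := by
    intro h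
    apply hyx
    apply σ.injective
    rw [h, K.fix]
  obtain ⟨r, hr, hry⟩ := htr _ hsx
  have hall : ∀ z, σ z = r • z := by
    intro z
    by_cases hz : z = x
    · rw [hz, K.fix, hR r hr]
    · obtain ⟨r', hr', hr'y⟩ := htr z hz
      rw [← hr'y, K.st r' (hR r' hr'), ← hry, ← mul_smul, ← mul_smul, hcomm r hr r' hr']
  refine ⟨r, hr, ?_, ?_⟩
  · intro h
    apply hy
    rw [hall, h, one_smul]
  · have hmem : ∀ s ∈ stabilizer H x, (s : Perm (Fin 6)) ∈
        Subgroup.centralizer {(r : Perm (Fin 6))} := by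
      intro s hs
      have hs' : s • x = x := hs
      have e : r * s = s * r := by
        apply K.eq_of_act
        intro z
        rw [mul_smul, mul_smul, ← hall, ← hall, K.st s hs' z]
      rw [Subgroup.mem_centralizer_singleton_iff]
      have := congrArg (fun z : H => (z : Perm (Fin 6))) e
      first | exact this | exact this.symm
    have hle : (stabilizer H x).map H.subtype ≤ Subgroup.centralizer {(r : Perm (Fin 6))} := by
      rintro _ ⟨s, hs, rfl⟩
      exact hmem s hs
    have := Subgroup.card_dvd_of_le hle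
    rwa [Subgroup.card_map_of_injective H.subtype_injective] at this

end Key

end Pool.Agent.X238.Qdl
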