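import Mathlib
import Pool.Agent.X238.Qdl.Key

/-!
# The key proposition: such a permutation is trivial
-/

namespace Pool.Agent.X238.Qdl

open Equiv MulAction

theorem five_orbit {α : Type*} [Fintype α] [DecidableEq α] (hα : Fintype.card α = 6)
    (c : Perm α) (hc : orderOf c = 5) :
    ∃ w, c w = w ∧ ∀ i j, i ≠ w → j ≠ w → ∃ k : ℤ, (c ^ k) i = j := by
  have hp : (orderOf c).Prime := by rw [hc]; norm_num
  obtain ⟨n, hn⟩ := Equiv.Perm.cycleType_prime_order hp
  rw [hc] at hn
  have hs := Equiv.Perm.sum_cycleType_le c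
  rw [hn, hα] at hs
  simp at hs
  have hn0 : n = 0 := by omega
  subst hn0
  have hcyc : c.IsCycle := by
    rw [← Equiv.Perm.card_cycleType_eq_one, hn]
    simp
  have hsum := Equiv.Perm.sum_cycleType c
  rw [hn] at hsum
  simp at hsum
  have hcomp : c.supportᶜ.card = 1 := by
    rw [Finset.card_compl, hα, ← hsum]
  obtain ⟨w, hw⟩ := Finset.card_eq_one.1 hcomp
  have hmem : ∀ i, i ≠ w → c i ≠ i := by
    intro i hi
    rw [← Equiv.Perm.mem_support]
    by_contra h
    have : i ∈ c.supportᶜ := Finset.mem_compl.2 h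
    rw [hw, Finset.mem_singleton] at this
    exact hi this
  refine ⟨w, ?_, ?_⟩
  · have : w ∈ c.supportᶜ := by rw [hw]; exact Finset.mem_singleton_self _
    rw [Finset.mem_compl, Equiv.Perm.mem_support, not_not] at this
    exact this
  · intro i j hi hj
    exact hcyc.sameCycle (hmem i hi) (hmem j hj)

theorem normal_trans {G X : Type*} [Group G] [MulAction G X] (h : TT G X) (N : Subgroup G)
    (hnorm : ∀ n ∈ N, ∀ g : G, g * n * g⁻¹ ∈ N)
    (hN : ∃ n ∈ N, ∃ x : X, n • x ≠ x) : ∀ a b : X, ∃ n ∈ N, n • a = b := by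
  obtain ⟨n, hn, x, hx⟩ := hN
  intro a b
  by_cases hab : a = b
  · exact ⟨1, N.one_mem, by rw [one_smul]; exact hab⟩
  · obtain ⟨g, hg1, hg2⟩ := h x (n • x) a b hx.symm hab
    refine ⟨g * n * g⁻¹, hnorm n hn g, ?_⟩
    rw [← hg2, ← hg1, mul_smul, mul_smul, inv_smul_smul]

theorem arith1 (m : ℕ) (h2 : 2 ≤ m) (h : m * (m - 1) ∣ 720) (h5 : 5 ∣ m * (m - 1)) :
    m = 5 ∨ m = 6 ∨ m = 10 ∨ m = 16 := by
  have : m ≤ 27 := by
    by_contra hc
    have h28 : 28 ≤ m := by omega
    have h3 := Nat.le_of_dvd (by norm_num) h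
    have h4 : 28 * 27 ≤ m * (m - 1) := Nat.mul_le_mul h28 (by omega)
    omega
  interval_cases m <;> omega

theorem card6 : Nat.card (Fin 6) = 6 := by simp

namespace Key

variable {H : Subgroup (Perm (Fin 6))} {X : Type*} [MulAction H X] {x : X} {σ : Perm X}

theorem case5 (K : Key H X x σ) [Finite X] {y : X} (hy : σ y ≠ y) (hm : Nat.card X = 5)
    (h3 : 3 ∣ Nat.card H) : False := by
  classical
  have := Fintype.ofFinite X
  have : Fact (Nat.Prime 3) := ⟨by norm_num⟩
  obtain ⟨g, hg⟩ := exists_prime_orderOf_dvd_card' (G := H) 3 h3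
  let τ : Perm X := MulAction.toPermHom H X g
  have hτa : ∀ z, τ z = g • z := fun z => rfl
  have hτ : τ ^ 3 ^ 1 = 1 := by
    show (MulAction.toPermHom H X g) ^ 3 ^ 1 = 1
    rw [← map_pow]
    have : g ^ 3 ^ 1 = 1 := by rw [pow_one, ← hg]; exact pow_orderOf_eq_one g
    rw [this, map_one]
  have hmod := Equiv.Perm.card_compl_support_modEq (p := 3) (n := 1) hτ
  have hcard : Fintype.card X = 5 := by rw [← Nat.card_eq_fintype_card]; exact hm
  have hne : τ ≠ 1 := by
    intro h
    have h1 : g = 1 := by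
      apply K.faithful
      intro z
      rw [← hτa, h]; rfl
    rw [h1, orderOf_one] at hg
    omega
  have hsup : 0 < τ.support.card := by
    rw [Finset.card_pos, Finset.nonempty_iff_ne_empty, Ne, Equiv.Perm.support_eq_empty_iff]
    exact hne
  have hc := Finset.card_compl τ.support
  have hle := Finset.card_le_univ τ.support
  rw [hcard] at hc hle
  rw [hcard] at hmod
  have h2 : τ.supportᶜ.card = 2 := by
    unfold Nat.ModEq at hmod
    omega
  obtain ⟨a, b, hab, hset⟩ := Finset.card_eq_two.1 h2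
  have hfix : ∀ z, g • z = z ↔ z = a ∨ z = b := by
    intro z
    have : z ∈ τ.supportᶜ ↔ z = a ∨ z = b := by rw [hset]; simp
    rw [← this, Finset.mem_compl, Equiv.Perm.mem_support, not_not, hτa]
  obtain ⟨c, hca, hcb, hcf⟩ := K.no_two hy g a b hab ((hfix a).2 (Or.inl rfl)) ((hfix b).2 (Or.inr rfl))
  rcases (hfix c).1 hcf with h | h
  · exact hca h
  · exact hcb h

theorem case16 (K : Key H X x σ) (hm : Nat.card X = 16)
    (hodd : ¬ 2 ∣ Nat.card (stabilizer H x)) (h5 : 5 ∣ Nat.card (stabilizer H x)) : False := by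
  classical
  have : Fact (Nat.Prime 5) := ⟨by norm_num⟩
  obtain ⟨c, hc⟩ := exists_prime_orderOf_dvd_card' (G := stabilizer H x) 5 h5
  have hc5 : orderOf ((c : H) : Perm (Fin 6)) = 5 := by
    rw [Subgroup.orderOf_coe, Subgroup.orderOf_coe, hc]
  obtain ⟨w, hw, htr⟩ := five_orbit (by simp) _ hc5
  have hle : stabilizer H x ≤ stabilizer H w := by
    intro s hs
    by_contra hsw
    have hsw' : s • w ≠ w := hsw
    have htrans : orbit (stabilizer H x) w = Set.univ := by
      ext i
      simp only [Set.mem_univ, iff_true]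
      by_cases hi : i = w
      · rw [hi]; exact mem_orbit_self w
      · obtain ⟨k, hk⟩ := htr (s • w) i hsw' hi
        refine ⟨c ^ k * ⟨s, hs⟩, ?_⟩
        show (c ^ k * ⟨s, hs⟩ : stabilizer H x) • w = i
        rw [mul_smul]
        have h1 : (⟨s, hs⟩ : stabilizer H x) • w = s • w := rfl
        rw [h1]
        have h2 : ∀ j : Fin 6, (c ^ k : stabilizer H x) • j = (((c : H) : Perm (Fin 6)) ^ k) j := by
          intro j
          have : (((c ^ k : stabilizer H x) : H) : Perm (Fin 6)) = ((c : H) : Perm (Fin 6)) ^ k := by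
            push_cast; rfl
          rw [← this]; rfl
        rw [h2]
        exact hk
    have hi := index_stabilizer (stabilizer H x) w
    rw [htrans, Set.ncard_univ, card6] at hi
    have := Subgroup.index_mul_card (stabilizer (stabilizer H x) w)
    rw [hi] at this
    apply hodd
    rw [← this]
    exact ⟨3 * Nat.card (stabilizer (stabilizer H x) w), by ring⟩
  obtain ⟨j, hj⟩ := Subgroup.card_dvd_of_le hle
  have e1 := K.ttX.card_eq x
  have e2 := K.tt6.card_eq w
  rw [hm] at e1
  rw [card6, hj] at e2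
  rw [e2] at e1
  have hpos : 0 < Nat.card (stabilizer H x) := Nat.card_pos
  have : Nat.card (stabilizer H x) * (6 * j) = Nat.card (stabilizer H x) * 16 := by
    nlinarith
  have h6 := Nat.eq_of_mul_eq_mul_left hpos this
  omega

theorem case6 (K : Key H X x σ) [Finite X] {y : X} (hy : σ y ≠ y) (hm : Nat.card X = 6)
    (h5 : 5 ∣ Nat.card (stabilizer H x)) : False := by
  classical
  have hyx : y ≠ x := by
    intro h; rw [h] at hy; exact hy K.fix
  have := Fintype.ofFinite X
  have : Fact (Nat.Prime 5) := ⟨by norm_num⟩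
  obtain ⟨c, hc⟩ := exists_prime_orderOf_dvd_card' (G := stabilizer H x) 5 h5
  have hc5' : orderOf (c : H) = 5 := by rw [Subgroup.orderOf_coe, hc]
  have hc5 : orderOf ((c : H) : Perm (Fin 6)) = 5 := by
    rw [Subgroup.orderOf_coe, Subgroup.orderOf_coe, hc]
  -- the action of `c` on `X`
  have hinj : Function.Injective (MulAction.toPermHom H X) := by
    intro g h hgh
    apply K.eq_of_act
    intro z
    exact congrArg (fun p : Perm X => p z) hgh
  have hτ5 : orderOf (MulAction.toPermHom H X (c : H)) = 5 := by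
    rw [orderOf_injective _ hinj, hc5']
  have hcardX : Fintype.card X = 6 := by rw [← Nat.card_eq_fintype_card]; exact hm
  obtain ⟨w, hw, htr⟩ := five_orbit hcardX _ hτ5
  have hwx : w = x := by
    by_contra hne
    exact K.no_five hy (c : H) hc5 w x hne hw c.2
  subst hwx
  obtain ⟨r, hr, hr1, hdvd⟩ := K.reg hy (Subgroup.zpowers (c : H) : Set H)
    (by
      intro r hr
      obtain ⟨k, rfl⟩ := Subgroup.mem_zpowers_iff.1 hr
      exact Subgroup.zpow_mem (stabilizer H w) c.2 k)
    (by
      intro r hr r' hr'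
      obtain ⟨k, rfl⟩ := Subgroup.mem_zpowers_iff.1 hr
      obtain ⟨k', rfl⟩ := Subgroup.mem_zpowers_iff.1 hr'
      exact (Commute.zpow_zpow_self (c : H) k k'))
    (by
      intro z hz
      obtain ⟨k, hk⟩ := htr y z hyx hz
      refine ⟨(c : H) ^ k, Subgroup.zpow_mem_zpowers _ k, ?_⟩
      rw [← map_zpow] at hk
      exact hk)
  have hr5 : orderOf (r : Perm (Fin 6)) = 5 := by
    rw [Subgroup.orderOf_coe]
    have h1 : orderOf r ∣ 5 := by
      rw [← hc5']
      exact orderOf_dvd_of_mem_zpowers hr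
    rcases (Nat.dvd_prime (by norm_num : Nat.Prime 5)).1 h1 with h | h
    · exact absurd (orderOf_eq_one_iff.1 h) hr1
    · exact h
  rw [card_centralizer_five _ hr5] at hdvd
  have ha : Nat.card (stabilizer H w) = 5 := Nat.dvd_antisymm hdvd h5
  have hH : Nat.card H = 30 := by rw [K.ttX.card_eq w, hm, ha]
  have hst : ∀ i : Fin 6, Nat.card (stabilizer H i) = 5 := by
    intro i
    have := K.tt6.card_eq i
    rw [card6, hH] at this
    omega
  have : Fact (Nat.Prime 2) := ⟨by norm_num⟩
  obtain ⟨u, hu⟩ := exists_prime_orderOf_dvd_card' (G := H) 2 (by rw [hH]; norm_num)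
  have hu2 : (u : Perm (Fin 6)) ^ 2 = 1 := by
    have h1 : u ^ 2 = 1 := by rw [← hu]; exact pow_orderOf_eq_one u
    have h2 := congrArg (fun z : H => (z : Perm (Fin 6))) h1
    exact h2
  have huf : ∀ i, (u : Perm (Fin 6)) i ≠ i := by
    intro i hi
    have hmem : u ∈ stabilizer H i := hi
    have h1 : orderOf (⟨u, hmem⟩ : stabilizer H i) ∣ Nat.card (stabilizer H i) :=
      orderOf_dvd_natCard _
    rw [Subgroup.orderOf_mk, hu, hst] at h1
    omega
  have hsign := sign_involution _ hu2 huf
  let f : H →* ℤˣ := Perm.sign.comp H.subtype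
  have hrange : f.range = ⊤ := by
    rw [eq_top_iff]
    intro z _
    rcases Int.units_eq_one_or z with h | h
    · rw [h]; exact Subgroup.one_mem _
    · rw [h]; exact ⟨u, hsign⟩
  have hidx : f.ker.index = 2 := by
    rw [Subgroup.index_ker, hrange]
    have : Nat.card (⊤ : Subgroup ℤˣ) = Nat.card ℤˣ := Subgroup.card_top
    rw [this, Nat.card_eq_fintype_card, Fintype.card_units_int]
  have hker : Nat.card f.ker = 15 := by
    have := Subgroup.card_mul_index f.ker
    rw [hidx, hH] at this
    omega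
  have htrans := normal_trans K.tt6 f.ker (fun n hn g => (MonoidHom.normal_ker f).conj_mem n hn g)
    (by
      by_contra hcon
      push Not at hcon
      have hbot : f.ker = ⊥ := by
        rw [eq_bot_iff]
        intro n hn
        have : n = 1 := by
          apply Subtype.ext
          apply Equiv.ext
          intro i
          exact hcon n hn i
        rw [this]; exact Subgroup.one_mem _
      rw [hbot, Subgroup.card_bot] at hker
      omega)
  have : IsPretransitive f.ker (Fin 6) := ⟨fun a b => by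
    obtain ⟨n, hn, h⟩ := htrans a b
    exact ⟨⟨n, hn⟩, h⟩⟩
  have h6 := index_stabilizer_of_transitive f.ker (0 : Fin 6)
  have h7 := Subgroup.index_mul_card (stabilizer f.ker (0 : Fin 6))
  rw [h6, card6, hker] at h7
  omega

theorem case10 (K : Key H X x σ) [Finite X] {y : X} (hy : σ y ≠ y) (hm : Nat.card X = 10)
    (h8 : Nat.card (stabilizer (stabilizer H x) y) ∣ 8) : False := by
  classical
  have hyx : y ≠ x := by
    intro h; rw [h] at hy; exact hy K.fix
  have h3 : Fact (Nat.Prime 3) := ⟨by norm_num⟩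
  have ha := K.ttX.card_stab hyx
  rw [hm] at ha
  obtain ⟨R, hR⟩ := Sylow.exists_subgroup_card_pow_prime (G := stabilizer H x) 3 (n := 2)
    (by rw [ha]; exact ⟨_, rfl⟩)
  have hcomm : ∀ a b : R, a * b = b * a :=
    (IsPGroup.isMulCommutative_of_card_eq_prime_sq hR).is_comm.comm
  have hR9 : ∀ r : R, r ^ 9 = 1 := by
    intro r
    have : r ^ Nat.card R = 1 := pow_card_eq_one'
    rwa [hR] at this
  have hfree : ∀ r : R, (((r : stabilizer H x) : H) • y = y) → r = 1 := by
    intro r hr
    have h1 : orderOf r ∣ 9 := orderOf_dvd_of_pow_eq_one (hR9 r)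
    have hmem : (r : stabilizer H x) ∈ stabilizer (stabilizer H x) y := hr
    have h2 : orderOf (⟨(r : stabilizer H x), hmem⟩ : stabilizer (stabilizer H x) y) ∣
        Nat.card (stabilizer (stabilizer H x) y) := orderOf_dvd_natCard _
    rw [Subgroup.orderOf_mk, Subgroup.orderOf_coe] at h2
    have h3 : orderOf r ∣ Nat.gcd 9 8 := Nat.dvd_gcd h1 (h2.trans h8)
    have h4 : Nat.gcd 9 8 = 1 := by norm_num
    rw [h4, Nat.dvd_one] at h3
    exact orderOf_eq_one_iff.1 h3
  have horb : orbit R y = ({x} : Set X)ᶜ := by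
    refine Set.eq_of_subset_of_ncard_le ?_ ?_ (Set.toFinite _)
    · rintro _ ⟨r, rfl⟩ hz
      apply hyx
      have h1 : ((r : stabilizer H x) : H) • y = x := hz
      have h2 : ((r : stabilizer H x) : H) • x = x := (r : stabilizer H x).2
      exact smul_left_cancel _ (h1.trans h2.symm)
    · rw [← index_stabilizer, Set.ncard_compl, Set.ncard_singleton, hm]
      have hbot : stabilizer R y = ⊥ := by
        rw [eq_bot_iff]
        intro r hr
        rw [hfree r hr]; exact Subgroup.one_mem _
      rw [hbot, Subgroup.index_bot, hR]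
      norm_num
  obtain ⟨r, ⟨r', hr'⟩, hr1, hdvd⟩ := K.reg hy (Set.range (fun r : R => ((r : stabilizer H x) : H)))
    (by
      rintro _ ⟨r, rfl⟩
      exact (r : stabilizer H x).2)
    (by
      rintro _ ⟨r, rfl⟩ _ ⟨r', rfl⟩
      have := congrArg (fun z : R => ((z : stabilizer H x) : H)) (hcomm r r')
      exact this)
    (by
      intro z hz
      have : z ∈ orbit R y := by rw [horb]; exact hz
      obtain ⟨r, hr⟩ := this
      exact ⟨_, ⟨r, rfl⟩, hr⟩)
  have hcoe9 : ∀ r : R, (((r : stabilizer H x) : H) : Perm (Fin 6)) ^ 9 = 1 := by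
    intro r
    have := congrArg (fun z : R => (((z : stabilizer H x) : H) : Perm (Fin 6))) (hR9 r)
    exact this
  have hr9 : (r : Perm (Fin 6)) ^ 9 = 1 := by rw [← hr']; exact hcoe9 r'
  have hr1' : (r : Perm (Fin 6)) ≠ 1 := by
    intro h; apply hr1; exact Subtype.ext h
  rw [card_centralizer_nine _ hr9 hr1'] at hdvd
  have hHle : Nat.card H ≤ 180 := by
    rw [K.ttX.card_eq x, hm]
    have := Nat.le_of_dvd (by norm_num) hdvd
    omega
  -- an element of `R` fixing a point
  have hfix : ∃ r0 : R, r0 ≠ 1 ∧ ∃ i : Fin 6, (((r0 : stabilizer H x) : H) : Perm (Fin 6)) i = i := by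
    have hninj : ¬ Function.Injective
        (fun r : R => (((r : stabilizer H x) : H) : Perm (Fin 6)) 0) := by
      intro hinj
      have := Nat.card_le_card_of_injective _ hinj
      rw [hR, card6] at this
      omega
    rw [Function.not_injective_iff] at hninj
    obtain ⟨r1, r2, he, hne⟩ := hninj
    refine ⟨r1⁻¹ * r2, ?_, 0, ?_⟩
    · intro h
      apply hne
      rw [inv_mul_eq_one] at h
      exact h
    · have he' : (((r1 : stabilizer H x) : H) : Perm (Fin 6)) 0 =
        (((r2 : stabilizer H x) : H) : Perm (Fin 6)) 0 := he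
      show ((((r1 : stabilizer H x) : H) : Perm (Fin 6)))⁻¹
        ((((r2 : stabilizer H x) : H) : Perm (Fin 6)) 0) = 0
      rw [← he']; exact Equiv.symm_apply_apply _ _
  obtain ⟨r0, hr0, i, hi⟩ := hfix
  have hr0' : (((r0 : stabilizer H x) : H) : Perm (Fin 6)) ≠ 1 := by
    intro h
    apply hr0
    apply Subtype.ext
    apply Subtype.ext
    apply Subtype.ext
    exact h
  have hthree := isThreeCycle_nine _ (hcoe9 r0) hr0' i hi
  have h2 : IsMultiplyPretransitive H (Fin 6) 2 := by
    rw [is_two_pretransitive_iff]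
    intro a b c d hab hcd
    exact K.tt6 a b c d hab hcd
  have hprim : IsPreprimitive H (Fin 6) := isPreprimitive_of_is_two_pretransitive h2
  have halt := Equiv.Perm.alternatingGroup_le_of_isPreprimitive_of_isThreeCycle_mem hprim hthree
    ((r0 : stabilizer H x) : H).2
  have hcd := Subgroup.card_le_of_le halt
  rw [nat_card_alternatingGroup, card6] at hcd
  have : Nat.factorial 6 / 2 = 360 := by decide
  omega

/-- The key proposition. -/
theorem main (K : Key H X x σ) : ∀ y, σ y = y := by
  by_contra hcon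
  push Not at hcon
  obtain ⟨y, hy⟩ := hcon
  have hyx : y ≠ x := by
    intro h; rw [h] at hy; exact hy K.fix
  have : Finite X := Finite.of_surjective (fun h : H => h • x) (K.ttX.trans x)
  have hH720 : Nat.card H ∣ 720 := by
    have h1 := Subgroup.card_subgroup_dvd_card H
    rw [Nat.card_perm, card6] at h1
    exact h1
  have e1 := K.ttX.card_eq x
  have e2 := K.ttX.card_stab hyx
  have e3 := K.tt6.card_eq 0
  have e4 := K.tt6.card_stab (x := 0) (y := 1) (by decide)
  rw [card6] at e3 e4
  have h5b : ¬ 5 ∣ Nat.card (stabilizer (stabilizer H x) y) := by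
    intro h
    have : Fact (Nat.Prime 5) := ⟨by norm_num⟩
    obtain ⟨s, hs⟩ := exists_prime_orderOf_dvd_card' (G := stabilizer (stabilizer H x) y) 5 h
    refine K.no_five hy ((s : stabilizer H x) : H) ?_ x y hyx.symm (s : stabilizer H x).2 s.2
    rw [Subgroup.orderOf_coe, Subgroup.orderOf_coe, Subgroup.orderOf_coe, hs]
  have hm2 : 2 ≤ Nat.card X := by
    have : Nontrivial X := ⟨⟨y, x, hyx⟩⟩
    exact Finite.one_lt_card
  have hbpos : 0 < Nat.card (stabilizer (stabilizer H x) y) := Nat.card_pos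
  have h30 : 30 ∣ Nat.card H := ⟨_, by rw [e3, e4]; ring⟩
  rw [e2] at e1
  have hdiv : (Nat.card X * (Nat.card X - 1)) * Nat.card (stabilizer (stabilizer H x) y) ∣ 720 := by
    rw [mul_assoc, ← e1]; exact hH720
  have h5 : 5 ∣ (Nat.card X * (Nat.card X - 1)) * Nat.card (stabilizer (stabilizer H x) y) := by
    rw [mul_assoc, ← e1]; exact dvd_trans (by norm_num) h30
  have h5' : 5 ∣ Nat.card X * (Nat.card X - 1) := by
    rcases (Nat.Prime.dvd_mul (by norm_num : Nat.Prime 5)).1 h5 with h | h
    · exact h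
    · exact absurd h h5b
  have hmm : Nat.card X * (Nat.card X - 1) ∣ 720 := dvd_trans (Dvd.intro _ rfl) hdiv
  rcases arith1 _ hm2 hmm h5' with hm | hm | hm | hm
  · exact K.case5 hy hm (dvd_trans (by norm_num) h30)
  · apply K.case6 hy hm
    rw [e2, hm]
    exact ⟨_, rfl⟩
  · apply K.case10 hy hm
    rw [hm] at hdiv
    have : 90 * Nat.card (stabilizer (stabilizer H x) y) ∣ 90 * 8 := hdiv
    exact Nat.dvd_of_mul_dvd_mul_left (by norm_num) this
  · rw [hm] at hdiv e2
    have : 240 * Nat.card (stabilizer (stabilizer H x) y) ∣ 240 * 3 := hdiv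
    have h3 := Nat.dvd_of_mul_dvd_mul_left (by norm_num) this
    apply K.case16 hm
    · rw [e2]
      rcases (Nat.dvd_prime (by norm_num : Nat.Prime 3)).1 h3 with h | h <;> rw [h] <;> omega
    · rw [e2]
      exact ⟨3 * Nat.card (stabilizer (stabilizer H x) y), by ring⟩

end Key

end Pool.Agent.X238.Qdl
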