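import Mathlib
import Pool.Agent.X238.Qdl.KeyProp

/-!
# The abstract statement on a twisted map between two six point sets
-/

namespace Pool.Agent.X238.Qdl

open Equiv MulAction

/-- The kernel of an action. -/
def kerAct (N X : Type*) [Group N] [MulAction N X] : Subgroup N := (MulAction.toPermHom N X).ker

theorem mem_kerAct {N X : Type*} [Group N] [MulAction N X] {n : N} :
    n ∈ kerAct N X ↔ ∀ y : X, n • y = y := by
  unfold kerAct
  rw [MonoidHom.mem_ker, Equiv.ext_iff]
  rfl

theorem kerAct_conj {N X : Type*} [Group N] [MulAction N X] (n : N) (hn : n ∈ kerAct N X) (g : N) :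
    g * n * g⁻¹ ∈ kerAct N X :=
  (MonoidHom.normal_ker (MulAction.toPermHom N X)).conj_mem n hn g

theorem lemmaM {N X Y : Type*} [Group N] [MulAction N X] [MulAction N Y] (hX : TT N X)
    (hY6 : Nat.card Y = 6) (E : Subgroup N) (hE : ∀ e ∈ E, ∀ g : N, g * e * g⁻¹ ∈ E)
    (htr : ∀ a b : Y, ∃ e ∈ E, e • a = b) (x : X)
    (hx : ∀ e ∈ E, e • x = x → ∀ y : Y, e • y = y) : False := by
  classical
  have hfin : Finite Y := Nat.finite_of_card_ne_zero (by rw [hY6]; norm_num)
  let φ : N →* Perm Y := MulAction.toPermHom N Y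
  have hφ : ∀ n y, φ n y = n • y := fun n y => rfl
  let E' : Subgroup (Perm Y) := E.map φ
  have htr' : IsPretransitive E' Y := ⟨fun a b => by
    obtain ⟨e, he, h⟩ := htr a b
    exact ⟨⟨φ e, ⟨e, he, rfl⟩⟩, h⟩⟩
  have hne : Nonempty Y := by
    have : 0 < Nat.card Y := by rw [hY6]; norm_num
    exact (Nat.card_pos_iff.1 this).1
  obtain ⟨y0⟩ := hne
  have h6 := index_stabilizer_of_transitive E' y0
  have h7 := Subgroup.index_mul_card (stabilizer E' y0)
  rw [h6, hY6] at h7
  have hp2 : Fact (Nat.Prime 2) := ⟨by norm_num⟩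
  have hp3 : Fact (Nat.Prime 3) := ⟨by norm_num⟩
  obtain ⟨⟨p2, e2, he2, rfl⟩, ho2⟩ := exists_prime_orderOf_dvd_card' (G := E') 2
    (by rw [← h7]; exact ⟨3 * Nat.card (stabilizer E' y0), by ring⟩)
  obtain ⟨⟨p3, e3, he3, rfl⟩, ho3⟩ := exists_prime_orderOf_dvd_card' (G := E') 3
    (by rw [← h7]; exact ⟨2 * Nat.card (stabilizer E' y0), by ring⟩)
  have ho2' : orderOf (φ e2) = 2 := by rw [← ho2, ← Subgroup.orderOf_coe]
  have ho3' : orderOf (φ e3) = 3 := by rw [← ho3, ← Subgroup.orderOf_coe]
  have hn2 : e2 • x ≠ x := by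
    intro h
    have : φ e2 = 1 := Equiv.ext (fun y => hx e2 he2 h y)
    rw [this, orderOf_one] at ho2'
    omega
  have hn3 : e3 • x ≠ x := by
    intro h
    have : φ e3 = 1 := Equiv.ext (fun y => hx e3 he3 h y)
    rw [this, orderOf_one] at ho3'
    omega
  obtain ⟨n, hn, hn'⟩ := hX x (e2 • x) x (e3 • x) hn2.symm hn3.symm
  have hfix : (e3⁻¹ * (n * e2 * n⁻¹)) • x = x := by
    have h1 : n⁻¹ • x = x := by rw [inv_smul_eq_iff, hn]
    rw [mul_smul, mul_smul, mul_smul, h1, hn', inv_smul_smul]
  have htriv := hx _ (E.mul_mem (E.inv_mem he3) (hE e2 he2 n)) hfix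
  have h1 : φ (e3⁻¹ * (n * e2 * n⁻¹)) = 1 := Equiv.ext htriv
  rw [map_mul, map_inv, inv_mul_eq_one] at h1
  have h2 : orderOf (φ (n * e2 * n⁻¹)) = 2 := by
    rw [← ho2', map_mul, map_mul, map_inv, ← MulAut.conj_apply]
    exact MulEquiv.orderOf_eq _ _
  rw [← h1, ho3'] at h2
  omega

theorem main_abs {N Ω Ω' X : Type*} [Group N] [MulAction N Ω] [MulAction N Ω'] [MulAction N X]
    (hΩ : TT N Ω) (hΩ' : TT N Ω') (hX : TT N X) (h6 : Nat.card Ω = 6) (h6' : Nat.card Ω' = 6)
    (θ : N ≃* N) (s : Ω → Ω') (hsi : Function.Injective s) (hss : Function.Surjective s)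
    (hsθ : ∀ (n : N) (ω : Ω), s (n • ω) = θ n • s ω)
    (σ : Perm X) (hσ : ∀ (n : N) (y : X), σ (n • y) = θ n • σ y) (x : X) (hx : σ x = x)
    (hst : ∀ n : N, n • x = x → θ n = n) :
    ∀ (n : N) (ω : Ω), s (n • ω) = n • s ω := by
  classical
  have hK : ∀ n, θ n ∈ kerAct N Ω' ↔ n ∈ kerAct N Ω := by
    intro n
    rw [mem_kerAct, mem_kerAct]
    constructor
    · intro h ω
      apply hsi
      rw [hsθ, h]
    · intro h ω'
      obtain ⟨ω, rfl⟩ := hss ω'
      rw [← hsθ, h]
  -- it suffices that `θ n * n⁻¹` acts trivially on `Ω'`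
  have hred : (∀ n : N, θ n * n⁻¹ ∈ kerAct N Ω') → ∀ (n : N) (ω : Ω), s (n • ω) = n • s ω := by
    intro h n ω
    have h1 := mem_kerAct.1 (h n) (n • s ω)
    rw [mul_smul, inv_smul_smul] at h1
    rw [hsθ, h1]
  apply hred
  by_cases hKX : ∃ k ∈ kerAct N Ω, ∃ y : X, k • y ≠ y
  · have htrK := normal_trans hX (kerAct N Ω) kerAct_conj hKX
    have h0 : ∀ k ∈ kerAct N Ω, k • x = x → k ∈ kerAct N Ω' := by
      intro k hk hkx
      have := (hK k).2 hk
      rwa [hst k hkx] at this
    have hle : ∀ k ∈ kerAct N Ω, k ∈ kerAct N Ω' := by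
      by_contra hcon
      push Not at hcon
      obtain ⟨k, hk, hk'⟩ := hcon
      have hmv : ∃ k ∈ kerAct N Ω, ∃ y : Ω', k • y ≠ y := by
        rw [mem_kerAct] at hk'
        push Not at hk'
        exact ⟨k, hk, hk'⟩
      have htr' := normal_trans hΩ' (kerAct N Ω) kerAct_conj hmv
      exact lemmaM hX h6' (kerAct N Ω) kerAct_conj htr' x (fun e he hex => mem_kerAct.1 (h0 e he hex))
    intro n
    obtain ⟨k, hk, hkx⟩ := htrK x (n • x)
    have hm : (k⁻¹ * n) • x = x := by rw [mul_smul, ← hkx, inv_smul_smul]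
    have h1 := hst _ hm
    have h2 : θ n = θ k * (k⁻¹ * n) := by
      rw [← h1, ← map_mul]
      congr 1
      group
    rw [h2]
    have h3 : θ k * (k⁻¹ * n) * n⁻¹ = θ k * k⁻¹ := by group
    rw [h3]
    exact Subgroup.mul_mem _ ((hK k).2 hk) (Subgroup.inv_mem _ (hle k hk))
  · push Not at hKX
    have hθK : ∀ k ∈ kerAct N Ω, θ k = k := fun k hk => hst k (hKX k hk x)
    have hKK' : ∀ n, n ∈ kerAct N Ω → n ∈ kerAct N Ω' := by
      intro n h
      have := (hK n).2 h
      rwa [hθK n h] at this
    intro n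
    by_cases hKXK : ∃ k ∈ kerAct N X, ∃ ω : Ω, k • ω ≠ ω
    · have htrKX := normal_trans hΩ (kerAct N X) kerAct_conj hKXK
      apply hKK'
      by_contra ht
      let E : Subgroup N := Subgroup.centralizer (kerAct N X : Set N)
      have hEmem : ∀ e, e ∈ E ↔ ∀ k ∈ kerAct N X, k * e = e * k := fun e =>
        Subgroup.mem_centralizer_iff
      have hEconj : ∀ e ∈ E, ∀ g : N, g * e * g⁻¹ ∈ E := by
        intro e he g
        rw [hEmem] at he ⊢
        intro k hk
        have h1 := he (g⁻¹ * k * g) (by
          have := kerAct_conj k hk g⁻¹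
          rwa [inv_inv] at this)
        calc k * (g * e * g⁻¹) = g * ((g⁻¹ * k * g) * e) * g⁻¹ := by group
          _ = g * (e * (g⁻¹ * k * g)) * g⁻¹ := by rw [h1]
          _ = _ := by group
      have htE : θ n * n⁻¹ ∈ E := by
        rw [hEmem]
        intro k hk
        have h1 : θ k = k := hst k (mem_kerAct.1 hk x)
        have hk' : n⁻¹ * k * n ∈ kerAct N X := by
          have := kerAct_conj k hk n⁻¹
          rwa [inv_inv] at this
        have h2 := hst _ (mem_kerAct.1 hk' x)
        rw [map_mul, map_mul, map_inv, h1] at h2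
        calc k * (θ n * n⁻¹) = θ n * ((θ n)⁻¹ * k * θ n) * n⁻¹ := by group
          _ = θ n * (n⁻¹ * k * n) * n⁻¹ := by rw [h2]
          _ = _ := by group
      have hmv : ∃ k ∈ E, ∃ y : Ω, k • y ≠ y := by
        rw [mem_kerAct] at ht
        push Not at ht
        exact ⟨_, htE, ht⟩
      have htrE := normal_trans hΩ E hEconj hmv
      have hne : Nonempty Ω := by
        have : 0 < Nat.card Ω := by rw [h6]; norm_num
        exact (Nat.card_pos_iff.1 this).1
      obtain ⟨ω0⟩ := hne
      apply lemmaM hΩ h6 E hEconj htrE ω0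
      intro e he heω ω
      obtain ⟨k, hk, rfl⟩ := htrKX ω0 ω
      have := (hEmem e).1 he k hk
      rw [← mul_smul, ← this, mul_smul, heω]
    · push Not at hKXK
      apply hKK'
      rw [mem_kerAct]
      apply hKXK
      rw [mem_kerAct]
      -- the finite group acting on the six points
      have hfin : Finite Ω := Nat.finite_of_card_ne_zero (by rw [h6]; norm_num)
      let eq : Ω ≃ Fin 6 := Finite.equivFinOfCardEq h6
      let ρ : N →* Perm (Fin 6) := (eq.permCongrHom : Perm Ω ≃* Perm (Fin 6)).toMonoidHom.comp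
        (MulAction.toPermHom N Ω)
      have hρ : ∀ n i, ρ n i = eq (n • eq.symm i) := fun n i => rfl
      have hρ1 : ∀ n, ρ n = 1 → ∀ y : X, n • y = y := by
        intro n hn
        apply hKX
        rw [mem_kerAct]
        intro ω
        have := hρ n (eq ω)
        rw [hn, eq.symm_apply_apply] at this
        exact (eq.injective this).symm
      have hwd : ∀ n n', ρ n = ρ n' → ∀ y : X, n • y = n' • y := by
        intro n n' h y
        have h1 : ρ (n'⁻¹ * n) = 1 := by rw [map_mul, map_inv, h, inv_mul_cancel]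
        have h2 := hρ1 _ h1 y
        rw [mul_smul, inv_smul_eq_iff] at h2
        exact h2
      let pre : ρ.range → N := fun h => Classical.choose h.2
      have hpre : ∀ h : ρ.range, ρ (pre h) = h.1 := fun h => Classical.choose_spec h.2
      let act : MulAction ρ.range X :=
        { smul := fun h y => pre h • y
          one_smul := fun y => by
            show pre 1 • y = y
            apply hρ1
            rw [hpre]; rfl
          mul_smul := fun g h y => by
            show pre (g * h) • y = pre g • pre h • y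
            rw [← mul_smul]
            apply hwd
            rw [hpre, map_mul, hpre, hpre]; rfl }
      have hact : ∀ (h : ρ.range) (y : X), h • y = pre h • y := fun h y => rfl
      have hact' : ∀ (n : N) (y : X), (⟨ρ n, ⟨n, rfl⟩⟩ : ρ.range) • y = n • y := by
        intro n y
        rw [hact]
        apply hwd
        rw [hpre]
      have key : Key ρ.range X x σ :=
        { faithful := by
            intro h hh
            have h1 : pre h ∈ kerAct N X := by
              rw [mem_kerAct]
              intro y; rw [← hact]; exact hh y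
            have h2 := hKXK _ h1
            apply Subtype.ext
            rw [← hpre]
            apply Equiv.ext
            intro i
            rw [hρ, h2, eq.apply_symm_apply]; rfl
          tt6 := by
            intro a b c d hab hcd
            obtain ⟨n, h1, h2⟩ := hΩ (eq.symm a) (eq.symm b) (eq.symm c) (eq.symm d)
              (fun h => hab (eq.symm.injective h)) (fun h => hcd (eq.symm.injective h))
            refine ⟨⟨ρ n, ⟨n, rfl⟩⟩, ?_, ?_⟩
            · show ρ n a = c
              rw [hρ, h1, eq.apply_symm_apply]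
            · show ρ n b = d
              rw [hρ, h2, eq.apply_symm_apply]
          ttX := by
            intro a b c d hab hcd
            obtain ⟨n, h1, h2⟩ := hX a b c d hab hcd
            refine ⟨⟨ρ n, ⟨n, rfl⟩⟩, ?_, ?_⟩
            · rw [hact', h1]
            · rw [hact', h2]
          fix := hx
          tw := by
            intro h
            refine ⟨⟨ρ (θ (pre h)), ⟨_, rfl⟩⟩, ?_⟩
            intro y
            rw [hact', hact, hσ]
          st := by
            intro h hh y
            rw [hact] at hh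
            rw [hact, hσ, hst _ hh, hact] }
      have hid := key.main
      intro y
      have h1 := hσ n (n⁻¹ • y)
      rw [smul_inv_smul, hid, hid] at h1
      rw [mul_smul]
      exact h1.symm

end Pool.Agent.X238.Qdl
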